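import Mathlib

/-!
# Fairness up to `K` goods and Pareto optimality against a common reference valuation

For every number `n ≥ 2` of agents, every `K ≥ 1` and every `c > 0` there is an instance with
strictly positive utilities and with only two kinds of goods in which every allocation that is
envy-free up to `K` goods and Pareto optimal gives all but a proportion `c` of the goods to one and
the same agent.  So no such allocation is balanced, or EF1 for the constant reference valuation
`v = 1`, or even satisfies `v(A_i) ≥ c v(A_j ∖ S)` with `|S| ≤ K` for all `i, j`.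

The instance.  There are `b = (n - 1) (K + L + 1)` big goods and `L b` small goods.  The value of
a small good is `1` for everybody, the value of a big good is `b` for agent `0` and `b + 2` for the
others.  If agent `0` has a big good then no other agent has more than `b` small goods, since
otherwise he would exchange `b + 1` of them for the big good.  If agent `0` has no big good, some
agent `j` has `K + L + 1` big goods, and agent `0` envies `j` by more than `K` goods.
-/

open Finset

namespace Pool.Agent.Results.MP_e74e46_co.OneAgentTakesAll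

/-- The bundle of agent `i` in the allocation `A` (good `g` goes to agent `A g`). -/
def bundle {n m : ℕ} (A : Fin m → Fin n) (i : Fin n) : Finset (Fin m) :=
  univ.filter fun g => A g = i

/-- The value of the set `S` of goods for the additive valuation with the values `w` of the goods. -/
def val {m : ℕ} (w : Fin m → ℝ) (S : Finset (Fin m)) : ℝ := ∑ g ∈ S, w g

/-- `A` is EF1 with respect to the profile `w`. -/
def EF1 {n m : ℕ} (w : Fin n → Fin m → ℝ) (A : Fin m → Fin n) : Prop :=
  ∀ i j, bundle A j = ∅ ∨
    ∃ g ∈ bundle A j, val (w i) ((bundle A j).erase g) ≤ val (w i) (bundle A i)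

/-- `A` is envy-free up to `K` goods and up to the factor `c` with respect to the profile `w`:
for all `i`, `j` one can delete at most `K` goods from `A_j` such that `w_i(A_i)` is at least `c`
times the value `w_i` of the remaining goods. -/
def ApproxEF {n m : ℕ} (c : ℝ) (K : ℕ) (w : Fin n → Fin m → ℝ) (A : Fin m → Fin n) : Prop :=
  ∀ i j, ∃ S ⊆ bundle A j, S.card ≤ K ∧ c * val (w i) (bundle A j \ S) ≤ val (w i) (bundle A i)

/-- `A` is Pareto optimal with respect to `u`. -/
def PO {n m : ℕ} (u : Fin n → Fin m → ℝ) (A : Fin m → Fin n) : Prop :=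
  ¬ ∃ B : Fin m → Fin n, (∀ i, val (u i) (bundle A i) ≤ val (u i) (bundle B i)) ∧
    ∃ i, val (u i) (bundle A i) < val (u i) (bundle B i)

/-- `A` is balanced: all bundles have `⌊m / n⌋` or `⌈m / n⌉` goods. -/
def Balanced {n m : ℕ} (A : Fin m → Fin n) : Prop :=
  ∀ i, (bundle A i).card = m / n ∨ (bundle A i).card = (m + n - 1) / n

/-- The constant reference valuation `v = 1`. -/
def one (n m : ℕ) : Fin n → Fin m → ℝ := fun _ _ => 1

lemma val_nonneg {m : ℕ} {w : Fin m → ℝ} (hw : ∀ g, 0 ≤ w g) (S : Finset (Fin m)) :
    0 ≤ val w S := sum_nonneg fun g _ => hw g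

/-- EF1 implies envy-freeness up to `K` goods for `K ≥ 1`. -/
lemma EF1.approx {n m : ℕ} {w : Fin n → Fin m → ℝ} {A : Fin m → Fin n} (h : EF1 w A)
    (hw : ∀ i g, 0 ≤ w i g) {K : ℕ} (hK : 1 ≤ K) : ApproxEF 1 K w A := by
  intro i j
  rcases h i j with h0 | ⟨g, hg, h1⟩
  · refine ⟨∅, empty_subset _, by simp, ?_⟩
    rw [h0, one_mul]
    have : val (w i) ((∅ : Finset (Fin m)) \ ∅) = 0 := by simp [val]
    rw [this]
    exact val_nonneg (hw i) _
  · refine ⟨{g}, by simpa using hg, by simpa using hK, ?_⟩
    rw [one_mul, sdiff_singleton_eq_erase]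
    exact h1

section instance_
variable (n s L : ℕ)

/-- The utilities: the first `s` of the `s + L * s` goods are big. -/
def util (i : Fin n) (g : Fin (s + L * s)) : ℝ :=
  if (g : ℕ) < s then (if (i : ℕ) = 0 then (s : ℝ) else s + 2) else 1

/-- The big goods. -/
def big : Finset (Fin (s + L * s)) := univ.filter fun g => (g : ℕ) < s

lemma card_big : (big s L).card = s := by
  unfold big
  have : (univ.filter fun g : Fin (s + L * s) => (g : ℕ) < s) =
      (range s).attachFin (fun i hi => by
        have := mem_range.1 hi
        exact lt_of_lt_of_le this (Nat.le_add_right _ _)) := by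
    ext g
    simp
  rw [this, card_attachFin, card_range]

variable {n s L}

lemma val_big {i : Fin n} (S : Finset (Fin (s + L * s))) (hS : S ⊆ big s L) :
    val (util n s L i) S = (if (i : ℕ) = 0 then (s : ℝ) else s + 2) * S.card := by
  unfold val
  rw [sum_congr rfl (g := fun _ => (if (i : ℕ) = 0 then (s : ℝ) else s + 2))]
  · rw [sum_const, nsmul_eq_mul, mul_comm]
  · intro g hg
    have := hS hg
    simp only [big, mem_filter, mem_univ, true_and] at this
    simp [util, this]

lemma val_small {i : Fin n} (S : Finset (Fin (s + L * s))) (hS : Disjoint S (big s L)) :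
    val (util n s L i) S = S.card := by
  unfold val
  rw [sum_congr rfl (g := fun _ => (1 : ℝ))]
  · simp
  · intro g hg
    have : g ∉ big s L := fun h => (disjoint_left.1 hS) hg h
    simp only [big, mem_filter, mem_univ, true_and] at this
    simp [util, this]

lemma util_pos (hs : 1 ≤ s) (i : Fin n) (g : Fin (s + L * s)) : 0 < util n s L i g := by
  unfold util
  have : (0 : ℝ) < s := by exact_mod_cast hs
  split_ifs <;> linarith

/-- An exchange: if agent `0` has a big good, no other agent has more than `s` small goods. -/
lemma few_small {A : Fin (s + L * s) → Fin n} (hPO : PO (util n s L) A)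
    {z : Fin n} (hz : (z : ℕ) = 0) {g0 : Fin (s + L * s)} (hg0 : g0 ∈ big s L) (hA : A g0 = z)
    {j : Fin n} (hj : j ≠ z) : (bundle A j \ big s L).card ≤ s := by
  classical
  by_contra hlt
  push Not at hlt
  obtain ⟨S, hS, hcard⟩ := exists_subset_card_eq (s := bundle A j \ big s L) (n := s + 1) hlt
  have hSj : ∀ g ∈ S, A g = j := by
    intro g hg
    have := (mem_sdiff.1 (hS hg)).1
    simpa [bundle] using this
  have hSb : ∀ g ∈ S, g ∉ big s L := fun g hg => (mem_sdiff.1 (hS hg)).2
  have hg0S : g0 ∉ S := fun h => hSb g0 h hg0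
  apply hPO
  set B : Fin (s + L * s) → Fin n := fun g => if g = g0 then j else if g ∈ S then z else A g
    with hB
  have hjz : (j : ℕ) ≠ 0 := by
    intro h
    exact hj (Fin.ext (by rw [h, hz]))
  -- the new bundle of agent `0`
  have hBz : bundle B z = (bundle A z).erase g0 ∪ S := by
    ext g
    simp only [bundle, mem_filter, mem_univ, true_and, mem_union, mem_erase, hB]
    by_cases h1 : g = g0
    · subst h1
      simp [hj, hg0S]
    · by_cases h2 : g ∈ S
      · simp [h1, h2]
      · simp [h1, h2]
  have hBj : bundle B j = insert g0 (bundle A j \ S) := by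
    ext g
    simp only [bundle, mem_filter, mem_univ, true_and, mem_insert, mem_sdiff, hB]
    by_cases h1 : g = g0
    · simp [h1]
    · by_cases h2 : g ∈ S
      · simp [h1, h2, Ne.symm hj]
      · simp [h1, h2]
  have hBi : ∀ i, i ≠ z → i ≠ j → bundle B i = bundle A i := by
    intro i hi hi'
    ext g
    simp only [bundle, mem_filter, mem_univ, true_and, hB]
    by_cases h1 : g = g0
    · subst h1
      simp [hA, Ne.symm hi, Ne.symm hi']
    · by_cases h2 : g ∈ S
      · simp [h1, h2, Ne.symm hi, hSj g h2, Ne.symm hi']
      · simp [h1, h2]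
  have hvS : ∀ i : Fin n, val (util n s L i) S = (s : ℝ) + 1 := by
    intro i
    rw [val_small S (disjoint_left.2 fun g hg => hSb g hg), hcard]
    push_cast; ring
  have hv0 : ∀ i : Fin n, val (util n s L i) {g0} = (if (i : ℕ) = 0 then (s : ℝ) else s + 2) := by
    intro i
    rw [val_big {g0} (by simpa using hg0)]
    simp
  have ez : val (util n s L z) (bundle B z) = val (util n s L z) (bundle A z) + 1 := by
    rw [hBz]
    have hd : Disjoint ((bundle A z).erase g0) S := by
      rw [disjoint_left]
      intro g hg hgS
      have h1 : A g = z := by simpa [bundle] using (mem_erase.1 hg).2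
      rw [hSj g hgS] at h1
      exact hj h1
    have h1 : val (util n s L z) ((bundle A z).erase g0 ∪ S) =
        val (util n s L z) ((bundle A z).erase g0) + val (util n s L z) S := by
      unfold val; exact sum_union hd
    have h2 : val (util n s L z) ((bundle A z).erase g0) + util n s L z g0 =
        val (util n s L z) (bundle A z) := by
      unfold val
      exact sum_erase_add _ _ (by simp [bundle, hA])
    have h3 : util n s L z g0 = s := by
      have := hv0 z
      simpa [val, hz] using this
    rw [h1, hvS z]
    linarith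
  have ej : val (util n s L j) (bundle B j) = val (util n s L j) (bundle A j) + 1 := by
    rw [hBj]
    have hn : g0 ∉ bundle A j \ S := by
      simp [bundle, hA, Ne.symm hj]
    have h1 : val (util n s L j) (insert g0 (bundle A j \ S)) =
        util n s L j g0 + val (util n s L j) (bundle A j \ S) := by
      unfold val; exact sum_insert hn
    have h2 : val (util n s L j) (bundle A j \ S) + val (util n s L j) S =
        val (util n s L j) (bundle A j) := by
      unfold val
      exact sum_sdiff (fun g hg => (mem_sdiff.1 (hS hg)).1)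
    have h3 : util n s L j g0 = s + 2 := by
      have := hv0 j
      simpa [val, hjz] using this
    have h4 := hvS j
    rw [h1]
    linarith
  refine ⟨B, ?_, z, ?_⟩
  · intro i
    by_cases hi : i = z
    · subst hi; rw [ez]; linarith
    · by_cases hi' : i = j
      · subst hi'; rw [ej]; linarith
      · rw [hBi i hi hi']
  · rw [ez]; linarith

/-- Agent `0` has a big good. -/
lemma has_big {A : Fin (s + L * s) → Fin n} {K : ℕ} (hs : 1 ≤ s)
    (hsn : s = (n - 1) * (K + L + 1)) (hEF : ApproxEF 1 K (util n s L) A)
    {z : Fin n} (hz : (z : ℕ) = 0) : ∃ g0 ∈ big s L, A g0 = z := by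
  classical
  by_contra hno
  push Not at hno
  -- pigeonhole
  have hmaps : ∀ g ∈ big s L, A g ∈ (univ.erase z : Finset (Fin n)) := by
    intro g hg
    exact mem_erase.2 ⟨hno g hg, mem_univ _⟩
  have hcard : (univ.erase z : Finset (Fin n)).card = n - 1 := by
    rw [card_erase_of_mem (mem_univ _)]; simp
  have hn1 : 0 < n - 1 := by
    rcases Nat.eq_zero_or_pos (n - 1) with h | h
    · rw [h] at hsn; omega
    · exact h
  obtain ⟨j, hj, hjc⟩ := exists_le_card_fiber_of_mul_le_card_of_maps_to (n := K + L + 1) hmaps
    (card_pos.1 (by rw [hcard]; exact hn1)) (by rw [hcard, card_big]; exact hsn.ge)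
  obtain ⟨S, hS, hSK, hle⟩ := hEF z j
  rw [one_mul] at hle
  -- the value of the bundle of agent `0`
  have h0 : val (util n s L z) (bundle A z) ≤ L * s := by
    have hd : Disjoint (bundle A z) (big s L) := by
      rw [disjoint_left]
      intro g hg hg'
      exact hno g hg' (by simpa [bundle] using hg)
    rw [val_small _ hd]
    have : (bundle A z).card ≤ L * s := by
      have h1 : bundle A z ⊆ univ \ big s L := by
        intro g hg
        exact mem_sdiff.2 ⟨mem_univ _, fun h => (disjoint_left.1 hd) hg h⟩
      have h2 := card_le_card h1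
      rw [card_sdiff_of_subset (subset_univ _), card_big, card_univ, Fintype.card_fin] at h2
      omega
    exact_mod_cast this
  -- the value of the rest of the bundle of agent `j`
  have h1 : (s : ℝ) * (L + 1) ≤ val (util n s L z) (bundle A j \ S) := by
    set T := ((big s L).filter fun g => A g = j) \ S with hT
    have hTsub : T ⊆ bundle A j \ S := by
      intro g hg
      rw [hT, mem_sdiff, mem_filter] at hg
      exact mem_sdiff.2 ⟨by simp [bundle, hg.1.2], hg.2⟩
    have hTbig : T ⊆ big s L := by
      intro g hg
      rw [hT, mem_sdiff, mem_filter] at hg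
      exact hg.1.1
    have hTc : L + 1 ≤ T.card := by
      have := le_card_sdiff S ((big s L).filter fun g => A g = j)
      rw [← hT] at this
      omega
    have h2 : val (util n s L z) T ≤ val (util n s L z) (bundle A j \ S) := by
      unfold val
      exact sum_le_sum_of_subset_of_nonneg hTsub (fun g _ _ => (util_pos hs z g).le)
    rw [val_big T hTbig, if_pos hz] at h2
    have h3 : ((L : ℝ) + 1) ≤ T.card := by exact_mod_cast hTc
    have h4 : (0 : ℝ) ≤ s := Nat.cast_nonneg _
    nlinarith
  have hs' : (1 : ℝ) ≤ s := by exact_mod_cast hs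
  nlinarith

/-- Almost all goods are given to agent `0`. -/
lemma almost_all {A : Fin (s + L * s) → Fin n} {K : ℕ} (hs : 1 ≤ s)
    (hsn : s = (n - 1) * (K + L + 1)) (hEF : ApproxEF 1 K (util n s L) A)
    (hPO : PO (util n s L) A) {z : Fin n} (hz : (z : ℕ) = 0) :
    (univ.filter fun g => A g ≠ z).card ≤ n * s := by
  classical
  obtain ⟨g0, hg0, hA⟩ := has_big hs hsn hEF hz
  have h1 : (univ.filter fun g => A g ≠ z) ⊆
      big s L ∪ (univ.erase z).biUnion fun j => bundle A j \ big s L := by
    intro g hg
    by_cases hb : g ∈ big s L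
    · exact mem_union_left _ hb
    · apply mem_union_right
      rw [mem_biUnion]
      refine ⟨A g, mem_erase.2 ⟨by simpa using hg, mem_univ _⟩, mem_sdiff.2 ⟨?_, hb⟩⟩
      simp [bundle]
  have h2 := card_le_card h1
  have h3 := card_union_le (big s L) ((univ.erase z).biUnion fun j => bundle A j \ big s L)
  have h4 : ((univ.erase z).biUnion fun j => bundle A j \ big s L).card ≤ (n - 1) * s := by
    refine card_biUnion_le.trans ?_
    refine (sum_le_card_nsmul _ _ s ?_).trans ?_
    · intro j hj
      exact few_small hPO hz hg0 hA (ne_of_mem_erase hj)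
    · rw [card_erase_of_mem (mem_univ _)]; simp
  rw [card_big] at h3
  have hn : 1 ≤ n := by
    have := z.2
    omega
  obtain ⟨k, rfl⟩ : ∃ k, n = k + 1 := ⟨n - 1, by omega⟩
  simp only [Nat.add_sub_cancel] at h4
  have : (k + 1) * s = k * s + s := by ring
  omega

end instance_

/-- **One agent must get almost everything.**  For all `n ≥ 2`, `K ≥ 1` and `c > 0` there is an
instance with `n` agents and strictly positive utilities `u`, with two kinds of goods only, such
that (1) every allocation that is envy-free up to `K` goods (in particular every EF1 allocation)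
and Pareto optimal with respect to `u` gives less than the proportion `c` of the goods to the
agents different from agent `0`;
(2) no allocation is envy-free up to `K` goods and PO with respect to `u` and envy-free up to `K`
goods and up to the factor `c` with respect to the reference valuation `v = 1`;
(3) (Q2) no allocation is EF1 and PO with respect to `u` and balanced; (Q1) no allocation is EF1
and PO with respect to `u` and EF1 with respect to the reference valuation `v = 1`. -/
theorem result (n : ℕ) (hn : 2 ≤ n) (K : ℕ) (hK : 1 ≤ K) (c : ℝ) (hc : 0 < c) :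
    ∃ (m : ℕ) (u : Fin n → Fin m → ℝ), 0 < m ∧ (∀ i g, 0 < u i g) ∧
      (∃ T : Finset (Fin m), ∀ i, ∃ a b : ℝ, ∀ g, u i g = if g ∈ T then a else b) ∧
      (∀ A : Fin m → Fin n, ApproxEF 1 K u A → PO u A →
        ((univ.filter fun g => A g ≠ ⟨0, by omega⟩).card : ℝ) < c * m) ∧
      (∀ A : Fin m → Fin n, ¬ (ApproxEF 1 K u A ∧ PO u A ∧ ApproxEF c K (one n m) A)) ∧
      (∀ A : Fin m → Fin n, ¬ (EF1 u A ∧ PO u A ∧ Balanced A)) ∧
      (∀ A : Fin m → Fin n, ¬ (EF1 u A ∧ PO u A ∧ EF1 (one n m) A)) := by
  classical
  -- the number `L`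
  obtain ⟨L, hL⟩ : ∃ L : ℕ, (n : ℝ) + K + n * n + n + n / c + 1 / c + 1 ≤ L :=
    exists_nat_ge _
  set s : ℕ := (n - 1) * (K + L + 1) with hs
  have hs1 : 1 ≤ s := by
    rw [hs]
    exact Nat.mul_pos (by omega) (by omega)
  have hs1' : (1 : ℝ) ≤ s := by exact_mod_cast hs1
  have hn' : (2 : ℝ) ≤ n := by exact_mod_cast hn
  have hK' : (1 : ℝ) ≤ K := by exact_mod_cast hK
  have hnc : 0 < (n : ℝ) / c := by positivity
  have h1c : 0 < 1 / c := by positivity
  have hLc : (n : ℝ) < c * (L - n - K) := by
    have h1 : (n : ℝ) / c < L - n - K := by nlinarith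
    rw [div_lt_iff₀ hc] at h1
    linarith
  let z : Fin n := ⟨0, by omega⟩
  have key : ∀ A : Fin (s + L * s) → Fin n, ApproxEF 1 K (util n s L) A → PO (util n s L) A →
      (univ.filter fun g => A g ≠ z).card ≤ n * s := fun A h1 h2 =>
    almost_all hs1 hs h1 h2 (z := z) rfl
  have hcomp : ∀ A : Fin (s + L * s) → Fin n,
      (bundle A z).card + (univ.filter fun g => A g ≠ z).card = s + L * s := by
    intro A
    have := card_filter_add_card_filter_not (s := (univ : Finset (Fin (s + L * s))))
      (fun g => A g = z)
    simpa [bundle] using this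
  have hsub : ∀ (A : Fin (s + L * s) → Fin n) (j : Fin n), j ≠ z →
      (bundle A j).card ≤ (univ.filter fun g => A g ≠ z).card := by
    intro A j hj
    apply card_le_card
    intro g hg
    simp only [bundle, mem_filter, mem_univ, true_and] at hg ⊢
    rw [hg]; exact hj
  let j1 : Fin n := ⟨1, by omega⟩
  have hj1 : j1 ≠ z := by
    intro h
    have := congrArg Fin.val h
    simp [j1, z] at this
  have hval1 : ∀ (S : Finset (Fin (s + L * s))) (i : Fin n),
      val (one n (s + L * s) i) S = S.card := by
    intro S i
    simp [val, one]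
  have hmain : ∀ A : Fin (s + L * s) → Fin n,
      ¬ (ApproxEF 1 K (util n s L) A ∧ PO (util n s L) A ∧ ApproxEF c K (one n _) A) := by
    rintro A ⟨h1, h2, h3⟩
    have h4 := key A h1 h2
    have h5 := hcomp A
    have h6 := hsub A j1 hj1
    obtain ⟨S, hS, hSK, hle⟩ := h3 j1 z
    rw [hval1, hval1, card_sdiff_of_subset hS] at hle
    have h7 : S.card ≤ (bundle A z).card := card_le_card hS
    have h8 : ((bundle A j1).card : ℝ) ≤ n * s := by exact_mod_cast h6.trans h4
    have h9 : ((s : ℝ) + L * s) - n * s - K ≤ (((bundle A z).card - S.card : ℕ) : ℝ) := by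
      rw [Nat.cast_sub h7]
      have e1 : ((bundle A z).card : ℝ) + ((univ.filter fun g => A g ≠ z).card : ℝ) =
          s + L * s := by exact_mod_cast h5
      have e2 : ((univ.filter fun g => A g ≠ z).card : ℝ) ≤ n * s := by exact_mod_cast h4
      have e3 : (S.card : ℝ) ≤ K := by exact_mod_cast hSK
      linarith
    have h10 : c * (((s : ℝ) + L * s) - n * s - K) ≤ n * s :=
      (mul_le_mul_of_nonneg_left h9 hc.le).trans (hle.trans h8)
    have h11 : (L - n - K : ℝ) * s ≤ ((s : ℝ) + L * s) - n * s - K := by
      nlinarith
    have h12 := mul_le_mul_of_nonneg_left h11 hc.le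
    nlinarith
  refine ⟨s + L * s, util n s L, by omega, fun i g => util_pos hs1 i g, ?_, ?_, hmain, ?_, ?_⟩
  · refine ⟨big s L, fun i => ⟨if (i : ℕ) = 0 then (s : ℝ) else s + 2, 1, fun g => ?_⟩⟩
    simp [util, big]
  · intro A h1 h2
    have h3 : ((univ.filter fun g => A g ≠ z).card : ℝ) ≤ n * s := by exact_mod_cast key A h1 h2
    refine lt_of_le_of_lt h3 ?_
    push_cast
    have : (n : ℝ) < c * (1 + L) := by nlinarith
    nlinarith
  · rintro A ⟨h1, h2, h3⟩
    have h4 := key A (h1.approx (fun i g => (util_pos hs1 i g).le) hK) h2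
    have h5 := hsub A j1 hj1
    have hLn : n * n + n ≤ L := by
      have : ((n * n + n : ℕ) : ℝ) ≤ L := by
        push_cast
        nlinarith
      exact_mod_cast this
    have h6 : n * s + 1 ≤ (s + L * s) / n := by
      rw [Nat.le_div_iff_mul_le (by omega)]
      nlinarith
    rcases h3 j1 with h7 | h7
    · omega
    · have h8 : (s + L * s) / n ≤ (s + L * s + n - 1) / n := Nat.div_le_div_right (by omega)
      omega
  · rintro A ⟨h1, h2, h3⟩
    have h1' := h1.approx (fun i g => (util_pos hs1 i g).le) hK
    have h4 := key A h1' h2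
    have h5 := hsub A j1 hj1
    have h5' := hcomp A
    rcases h3 j1 z with h6 | ⟨g, hg, h6⟩
    · rw [h6, card_empty] at h5'
      have hLn : n + 1 ≤ L := by
        have : ((n + 1 : ℕ) : ℝ) ≤ L := by
          push_cast
          nlinarith
        exact_mod_cast this
      nlinarith
    · rw [hval1, hval1] at h6
      have h7 : ((bundle A z).erase g).card ≤ (bundle A j1).card := by exact_mod_cast h6
      rw [card_erase_of_mem hg] at h7
      have hLn : 2 * n + 1 ≤ L := by
        have : ((2 * n + 1 : ℕ) : ℝ) ≤ L := by
          push_cast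
          nlinarith
        exact_mod_cast this
      have h8 : s + L * s ≤ 2 * (n * s) + 1 := by omega
      nlinarith

end Pool.Agent.Results.MP_e74e46_co.OneAgentTakesAll
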